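import Pool.Agent.H225.TE
import Pool.Agent.H225.SGB

/-!
# Prime tuples at integers with restricted digits, uniformly in the shifts, with the singular series

Let `b ≥ 2` be a base and let the digits of an integer `n < b^K` be restricted: the `i`-th digit belongs
to a set `A i`, where the sets `A i` are arbitrary, depend on the place `i < K`, and have the only
property that the number `∏ |A i|` of these integers is at least `e^{-δK} b^K`, where the constant
`δ > 0` does not depend on `b`.  (For example one digit may be excluded at every place if `b` is large;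
or a positive proportion of the digits may be fixed.)  Let `N` be an arbitrary base point up to a fixed
power of `b^K`, and `m = N + n`.

Let `D` be ANY set of `k` positive shifts up to a fixed (arbitrarily large) power of `b^K` with
`𝔖({0} ∪ D) ≠ 0`.  We show: the number of these `n` such that `m` and all `m + d`, `d ∈ D`, are prime is
at most `C 𝔖({0} ∪ D) ∏ |A i| / K^{k+1}`, and (if the last digit can be chosen such that all these
numbers are prime to `b`) at least `κ 𝔖({0} ∪ D) ∏ |A i| / K^{k+1}` of the `n` are such that all these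
numbers have at most `r` prime factors, all of them larger than `b^{K/r}`.  The constants do not depend
on the shifts.

The method is a Brun–Hooley sieve with weights, whose level of distribution is obtained from the Fourier
transform of the set of the integers with restricted digits at rationals (large sieve in blocks of
digits), see `Pool/Agent/Y816/PD`; the sieve product is compared with the singular series in
`Pool/Agent/H225/SGB`.
-/

set_option autoImplicit false

namespace Pool.Agent.Results.MP_485179_nt.RestrictedDigits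

open Finset Filter

/-- The number of residue classes modulo `p` which meet `S`. -/
def nu (S : Finset ℕ) (p : ℕ) : ℕ := (S.image (fun d => d % p)).card

/-- The singular series `∏_p (1 - 1/p)^(-|S|) (1 - ν_S(p)/p)`. -/
noncomputable def sing (S : Finset ℕ) : ℝ :=
  ∏' p : Nat.Primes, ((1 - 1 / ((p : ℕ) : ℝ))⁻¹) ^ S.card * (1 - (nu S p : ℝ) / ((p : ℕ) : ℝ))

open Classical in
/-- The number of the `n < b ^ K` in `T` whose `i`-th digit in base `b` belongs to `A i` for all
`i < K`. -/
noncomputable def count (b K : ℕ) (A : ℕ → Finset ℕ) (T : Set ℕ) : ℕ :=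
  ((range (b ^ K)).filter (fun n => (∀ i < K, n / b ^ i % b ∈ A i) ∧ n ∈ T)).card

/-- The number of choices of the digits. -/
noncomputable def choices (K : ℕ) (A : ℕ → Finset ℕ) : ℝ := ∏ i ∈ range K, ((A i).card : ℝ)

/-- `m` has at most `r` prime factors, counted with multiplicity, and all of them are larger than
`z ^ (1 / r)`. -/
def AlmostPrime (r z m : ℕ) : Prop :=
  (∀ p : ℕ, p.Prime → p ∣ m → z < p ^ r) ∧ m.primeFactorsList.length ≤ r

open Pool.Agent.Y816.PD (WG NA ND ND_sub TP NA_nonneg)
open Pool.Agent.H225.EX (Adm tupE)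
open Pool.Agent.H225.SGB (V_sing)
open Pool.Agent.H386R2.HL (singularSeries localFactor multipliable_localFactor)

/-- enumeration of a finite set -/
lemma enum (S : Finset ℕ) {k : ℕ} (hk : S.card = k) : ∃ a : Fin k → ℕ, Function.Injective a ∧
    univ.image a = S := by
  refine ⟨S.orderEmbOfFin hk, (S.orderEmbOfFin hk).injective, ?_⟩
  ext x
  have h := Finset.range_orderEmbOfFin S hk
  rw [mem_image]
  constructor
  · rintro ⟨i, -, rfl⟩
    exact S.orderEmbOfFin_mem hk i
  · intro hx
    rw [← Finset.mem_coe, ← h] at hx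
    obtain ⟨i, hi⟩ := hx
    exact ⟨i, mem_univ _, hi⟩

lemma nu_eq {S : Finset ℕ} {k : ℕ} {a : Fin k → ℕ} (haS : univ.image a = S) (p : ℕ) :
    Pool.Agent.H386R2.HL.nu a p = nu S p := by
  unfold nu Pool.Agent.H386R2.HL.nu
  rw [← haS, image_image]
  rfl

lemma sing_eq {S : Finset ℕ} {k : ℕ} (hk : S.card = k) {a : Fin k → ℕ} (haS : univ.image a = S) :
    singularSeries a = sing S := by
  unfold singularSeries sing localFactor
  rw [hk]
  refine tprod_congr fun p => ?_
  rw [nu_eq haS]

/-- a vanishing factor -/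
lemma adm_of_sing {S : Finset ℕ} (h : sing S ≠ 0) : Adm S := by
  intro p hp
  obtain ⟨a, ha, haS⟩ := enum S rfl
  by_contra hcon
  push Not at hcon
  -- all residue classes are met
  have hnu : nu S p = p := by
    unfold nu
    have h1 : S.image (fun d => d % p) = range p := by
      ext x
      rw [mem_image, mem_range]
      constructor
      · rintro ⟨d, -, rfl⟩
        exact Nat.mod_lt _ hp.pos
      · intro hx
        obtain ⟨d, hd, hdvd⟩ := hcon (p - x)
        refine ⟨d, hd, ?_⟩
        have h2 : (p - x) + d ≡ (p - x) + x [MOD p] := by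
          rw [Nat.sub_add_cancel hx.le]
          exact (Nat.modEq_zero_iff_dvd.2 hdvd).trans (Nat.modEq_zero_iff_dvd.2 dvd_rfl).symm
        have h3 := Nat.ModEq.add_left_cancel' _ h2
        unfold Nat.ModEq at h3
        rw [h3, Nat.mod_eq_of_lt hx]
    rw [h1, card_range]
  have hloc : localFactor a p = 0 := by
    unfold localFactor
    have hp0 : (p : ℝ) ≠ 0 := by exact_mod_cast hp.pos.ne'
    rw [nu_eq haS, hnu, div_self hp0, sub_self, mul_zero]
  have hm := (multipliable_localFactor a ha).hasProd
  have h0 : singularSeries a = 0 := by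
    refine tendsto_nhds_unique hm (tendsto_const_nhds.congr' ?_)
    filter_upwards [Filter.eventually_ge_atTop {⟨p, hp⟩}] with s hs
    refine (prod_eq_zero (hs (mem_singleton_self _)) ?_).symm
    exact hloc
  rw [sing_eq rfl haS] at h0
  exact h h0

/-- **Prime tuples at integers with restricted digits, uniformly in the shifts.** -/
theorem result (k E : ℕ) :
    ∃ δ : ℝ, 0 < δ ∧ ∃ r₀ : ℕ, 2 ≤ r₀ ∧ ∀ r : ℕ, r₀ ≤ r → ∀ b : ℕ, 2 ≤ b →
      ∃ κ C : ℝ, 0 < κ ∧ 0 < C ∧
      ∀ᶠ K : ℕ in atTop, ∀ N : ℕ, N ≤ b ^ (E * K) →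
        ∀ D : Finset ℕ, D.card = k → (∀ d ∈ D, 1 ≤ d ∧ d ≤ b ^ (E * K)) → sing (insert 0 D) ≠ 0 →
        ∀ A : ℕ → Finset ℕ, (∀ i < K, A i ⊆ range b) →
        (b : ℝ) ^ K ≤ Real.exp (δ * K) * choices K A →
        0 < sing (insert 0 D) ∧
        ((∃ e ∈ A 0, ∀ d ∈ insert 0 D, (N + e + d).Coprime b) → (∃ e ∈ A (K - 1), e ≠ 0) →
          κ * sing (insert 0 D) * choices K A / (K : ℝ) ^ (k + 1) ≤ count b K A
            {n | b ^ (K - 1) ≤ n ∧ ∀ d ∈ insert 0 D, AlmostPrime r (b ^ K) (N + n + d)}) ∧
        (count b K A {n | ∀ d ∈ insert 0 D, (N + n + d).Prime} : ℝ) ≤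
          C * sing (insert 0 D) * choices K A / (K : ℝ) ^ (k + 1) := by
  obtain ⟨δ, hδ, r₀, hr₀, h⟩ := tupE (k + 1) E (by omega)
  refine ⟨δ, hδ, r₀, hr₀, fun r hr b hb => ?_⟩
  obtain ⟨κ, C, hκ, hC, h1⟩ := h r hr b hb
  obtain ⟨c1, C1, hc1, hC1, hV⟩ := V_sing (k + 1) E b hb
  refine ⟨κ * c1, C * C1, by positivity, by positivity, ?_⟩
  filter_upwards [h1, hV] with K hK hVK N hN D hDk hDE hsing A hA hprod
  have hcard : (insert 0 D).card = k + 1 := by
    rw [card_insert_of_notMem (fun h0 => by have := (hDE 0 h0).1; omega), hDk]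
  have hle : ∀ d ∈ insert 0 D, d ≤ b ^ (E * K) := by
    intro d hd
    rw [mem_insert] at hd
    rcases hd with rfl | hd
    · exact Nat.zero_le _
    · exact (hDE d hd).2
  obtain ⟨a, ha, haS⟩ := enum (insert 0 D) hcard
  obtain ⟨hV1, hV2⟩ := hVK (insert 0 D) hcard hle N a ha haS
  rw [sing_eq hcard haS] at hV1 hV2
  have hadm := adm_of_sing hsing
  obtain ⟨h2, h3⟩ := hK N hN (insert 0 D) hcard hle hadm A hA hprod
  have hNA : 0 ≤ choices K A := NA_nonneg K A
  have hpos : 0 < sing (insert 0 D) := by
    refine lt_of_le_of_ne ?_ (Ne.symm hsing)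
    rw [← sing_eq hcard haS]
    exact Pool.Agent.H386R2.HL.singularSeries_nonneg ha
  refine ⟨hpos, fun hcop htop => ?_, ?_⟩
  · refine le_trans ?_ (h2 hcop htop)
    calc κ * c1 * sing (insert 0 D) * choices K A / (K : ℝ) ^ (k + 1)
        = κ * choices K A * (c1 * sing (insert 0 D) / (K : ℝ) ^ (k + 1)) := by ring
      _ ≤ _ := mul_le_mul_of_nonneg_left hV1 (by positivity)
  · refine le_trans (le_trans (Nat.cast_le.2 ?_) h3) ?_
    · refine ND_sub fun n _ hn1 hn2 => ⟨hn1, fun d hd p hp hpd => ?_⟩
      have hp0 : (N + n + d).Prime := hn2 d hd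
      rw [(Nat.prime_dvd_prime_iff_eq hp hp0).1 hpd]
      have h5 : N + n + d < (N + n + d) ^ 2 := by nlinarith [hp0.two_le]
      have h6 : (N + n + d) ^ 2 ≤ (N + n + d) ^ r := Nat.pow_le_pow_right hp0.pos (by omega)
      omega
    · calc C * NA K A * WG (TP (insert 0 D) N) (b ^ K)
          ≤ C * NA K A * (C1 * sing (insert 0 D) / (K : ℝ) ^ (k + 1)) :=
            mul_le_mul_of_nonneg_left hV2 (mul_nonneg hC.le hNA)
        _ = C * C1 * sing (insert 0 D) * choices K A / (K : ℝ) ^ (k + 1) := by
            unfold choices NA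
            ring

end Pool.Agent.Results.MP_485179_nt.RestrictedDigits
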