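import Pool.Agent.V11113.MC.Ml
import Pool.Agent.V11113.MR.BilFam

/-!
# Short prime tuples: their continuations by shifts from thin families of residues

The families are the families of the least residues modulo `m` (an arbitrary integer of the size of `N`) of residues with
exponential sums `O(#s m ^ (-δ))`, with an arbitrarily small `δ > 0` (`Small`). Examples (part (2)): the values
`x · Q y + f(x) + g(y)` modulo a prime `p` at the pairs of vectors of two arbitrary sets with `#A #A' ≥ p ^ (d + 2 δ)`; for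
`d = 1` this contains the products of the elements of two arbitrary sets with `#A #A' ≥ p ^ (1 + 2 δ)` and the multiplicative
subgroups of order `p ^ (1 / 2 + δ)`. Nothing else is assumed about the families; they may have as few as about `m ^ (2 δ)`
different members.

From the starting files: the laws of random integers and the second moments of the error for one form with arbitrary weights
(`Pool.Agent.H373R2.T7`, `Pool.Agent.W93`); several forms and the passage to primes: helper251's `Pool.Agent.V11251.DS`. New: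
the families of residues (completion), `Pool.Agent.V11113.MC`.
-/

set_option autoImplicit false

namespace Pool.Agent.Results.MP_485179_nt.ThinFamilies

open Finset Matrix

/-- The exponential sums over the family `u x ∈ ℤ / m`, `x ∈ s`, at all nonzero frequencies are at most `#s m ^ (-δ)`.
(`ZMod.stdAddChar` is the character `e(x / m)`.) -/
def Small (m : ℕ) [NeZero m] (δ : ℝ) {ι : Type} (s : Finset ι) (u : ι → ZMod m) : Prop :=
  ∀ b : ZMod m, b ≠ 0 → ‖∑ x ∈ s, (ZMod.stdAddChar (b * u x) : ℂ)‖ ≤ s.card * (m : ℝ) ^ (-δ)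

/-- families of values of bilinear forms -/
theorem small_bil (p : ℕ) [NeZero p] (hp : p.Prime) (δ : ℝ) (d : ℕ) (A A' : Finset (Fin d → ZMod p))
    (Q : Matrix (Fin d) (Fin d) (ZMod p)) (hQ : IsUnit Q.det) (h : (p : ℝ) ^ (d + 2 * δ) ≤ A.card * A'.card)
    (f g : (Fin d → ZMod p) → ZMod p) : Small p δ (A ×ˢ A') (fun z => z.1 ⬝ᵥ Q.mulVec z.2 + f z.1 + g z.2) := by
  have : Fact p.Prime := ⟨hp⟩
  exact fun b hb => Pool.Agent.V11113.MR.bil_small δ p d A A' Q hQ f g h b hb

open Classical in
/-- The sieve model of the indicator function of the primes: `1 / (log x ∏_{p ≤ z} (1 - 1 / p))` if `x ≥ 2` has no prime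
factor `≤ z`, and `0` if `x = 0` or if `x` has a prime factor `≤ z` (for `x = 1` the logarithm is replaced by `log 2`). -/
noncomputable def model (z x : ℕ) : ℝ :=
  if 1 ≤ x ∧ ∀ p : ℕ, p.Prime → p ≤ z → ¬ p ∣ x then
    1 / (Real.log (max x 2 : ℕ) * ∏ p ∈ (Icc 1 z).filter Nat.Prime, (1 - 1 / (p : ℝ))) else 0

open Classical in
/-- The `m ≤ X` for which `m` and all the `m + d`, `d ∈ D`, are primes. -/
noncomputable def tuple (D : Finset ℕ) (X : ℕ) : Finset ℕ := (Icc 1 X).filter (fun m => m.Prime ∧ ∀ d ∈ D, (m + d).Prime)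

open Classical in
/-- The `m ≤ X` for which `m`, all the `m + d`, `d ∈ D`, and all the `m + Y i` are primes. -/
noncomputable def longer {r : ℕ} (D : Finset ℕ) (Y : Fin r → ℕ) (X : ℕ) : Finset ℕ :=
  (tuple D X).filter (fun m => ∀ i, (m + Y i).Prime)

/-- For all the sets `D` of `k` integers in `[1, log ^ K N]` and for all `X ≤ N`, the number of the `m ≤ X` for which `m`,
all the `m + d`, `d ∈ D`, and all the `m + Y i` are primes is equal to the sum of the products of the models of `m + Y i`
over the `m ≤ X` for which `m` and all the `m + d` are primes, up to an error of at most `N / log ^ U N`. -/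
def Good {r : ℕ} (z k K U N : ℕ) (Y : Fin r → ℕ) : Prop :=
  ∀ D : Finset ℕ, D.card = k → (∀ d ∈ D, 1 ≤ d ∧ (d : ℝ) ≤ Real.log N ^ K) → ∀ X ≤ N,
    |((longer D Y X).card : ℝ) - ∑ m ∈ tuple D X, ∏ i, model z (m + Y i)| ≤ N / Real.log N ^ U

open Classical in
/-- Let `r`, `k`, `B`, `K`, `U` and `δ > 0` be fixed.

(1) Let `E` be a sufficiently large exponent, let `N` be large, `log ^ E N ≤ z ≤ log ^ (E + 1) N`, let `m i` (`i < r`) be moduli
with `N / B ≤ m i ≤ B N`, let `u i x ∈ ℤ / m i`, `x ∈ s i`, be ARBITRARY finite families with exponential sums at most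
`#(s i) (m i) ^ (-δ)`, and let `0 ≤ c i ≤ B N`. Then all the vectors `(x 1, ..., x r)`, `x i ∈ s i`, with the exception of a
proportion of at most `1 / log ^ U N` of these vectors, have the following property with
`Y i = c i + (least residue of u i (x i))`, for all the sets `D` of `k` integers in
`[1, log ^ K N]` and all `X ≤ N`: the number of the `n ≤ X` for which `n`, all the `n + d`, `d ∈ D`, and all the `n + Y i` are
primes is the number predicted by the sieve model, up to an error of at most `N / log ^ U N`: the sum, over the `n ≤ X` for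
which `n` and all the `n + d` are primes and no `n + Y i` has a prime factor `≤ z`, of the products of the
`1 / (log (n + Y i) ∏_{p ≤ z} (1 - 1 / p))`.

(2) Let `p` be a prime, `d` arbitrary, let `A` and `A'` be arbitrary sets of vectors modulo `p` with
`#A #A' ≥ p ^ (d + 2 δ)`, let `Q` be an invertible matrix and let `f` and `g` be arbitrary functions. Then the family
`x · Q y + f(x) + g(y)`, `x ∈ A`, `y ∈ A'`, has exponential sums at most `#A #A' p ^ (-δ)`. -/
theorem result (r k B K U : ℕ) (δ : ℝ) (hδ : 0 < δ) :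
    (∃ E₀ : ℕ, ∀ E : ℕ, E₀ ≤ E → ∃ N₀ : ℕ, ∀ N, N₀ ≤ N → ∀ (m : Fin r → ℕ) [∀ i, NeZero (m i)],
      (∀ i, m i ≤ B * N ∧ N ≤ B * m i) →
      ∀ (ι : Fin r → Type) (s : ∀ i, Finset (ι i)) (u : ∀ i, ι i → ZMod (m i)), (∀ i, Small (m i) δ (s i) (u i)) →
      ∀ c : Fin r → ℕ, (∀ i, c i ≤ B * N) → ∀ z : ℕ, Real.log N ^ E ≤ z → (z : ℝ) ≤ Real.log N ^ (E + 1) →
      (((Fintype.piFinset s).filter fun x => ¬ Good z k K U N (fun i => c i + (u i (x i)).val)).card : ℝ) ≤
        ((Fintype.piFinset s).card : ℝ) / Real.log N ^ U) ∧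
    (∀ (p : ℕ) [NeZero p], p.Prime → ∀ (d : ℕ) (A A' : Finset (Fin d → ZMod p)) (Q : Matrix (Fin d) (Fin d) (ZMod p)),
      IsUnit Q.det → (p : ℝ) ^ (d + 2 * δ) ≤ A.card * A'.card → ∀ f g : (Fin d → ZMod p) → ZMod p,
      Small p δ (A ×ˢ A') (fun z => z.1 ⬝ᵥ Q.mulVec z.2 + f z.1 + g z.2)) := by
  refine ⟨?_, fun p _ hp d A A' Q hQ h f g => small_bil p hp δ d A A' Q hQ h f g⟩
  obtain ⟨E₀, h⟩ := Pool.Agent.V11113.MC.idx_res r δ hδ (fun _ => 1) (fun _ => le_rfl) (fun _ => 1) (fun _ => by norm_num)
    B (K * k) U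
  refine ⟨E₀, fun E hE => ?_⟩
  obtain ⟨N₀, h1⟩ := h E hE
  refine ⟨N₀ + 8, fun N hN m _ hm ι s u hu c hc z hz1 hz2 => ?_⟩
  have hlog : 2 ≤ Real.log N := by
    have h8 : Real.log 8 ≤ Real.log N := Real.log_le_log (by norm_num) (by exact_mod_cast (by omega : 8 ≤ N))
    have h9 : Real.log 8 = 3 * Real.log 2 := by rw [← Real.log_rpow (by norm_num)]; norm_num
    have := Real.log_two_gt_d9
    linarith
  refine h1 N (by omega) m hm ι s u hu (fun i => (c i : ℤ)) (fun i => by rw [abs_of_nonneg (by positivity)]; exact_mod_cast hc i) z hz1 hz2 (Finset ℕ)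
    ((Icc 1 ⌊Real.log N ^ K⌋₊).powersetCard k) (Pool.Agent.V11251.DS.card_subsets N k K hlog)
    (fun D => {n | n.Prime ∧ ∀ d ∈ D, (n + d).Prime})
    (fun x => Good z k K U N (fun i => c i + (u i (x i)).val)) (fun x hv => ?_)
  intro D hD hD2 X hX
  have h2 := hv D (by
    rw [mem_powersetCard]
    refine ⟨fun d hd => ?_, hD⟩
    rw [mem_Icc]
    exact ⟨(hD2 d hd).1, Nat.le_floor (hD2 d hd).2⟩) X hX
  have e2 : ∀ i, ((c i + (u i (x i)).val : ℕ) : ℤ) = ((1 : ℕ) : ℤ) * ((c i : ℤ) + ((u i (x i)).val : ℤ)) := fun i => by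
    push_cast; ring
  rw [Pool.Agent.V11251.DS.DC_set' _ X z _ _ (tuple D X) (longer D (fun i => c i + (u i (x i)).val) X)
    (fun n => ∏ i, model z (n + (c i + (u i (x i)).val)))] at h2
  · exact h2
  · intro n
    unfold tuple
    rw [mem_filter]
    exact Iff.rfl
  · intro n
    unfold longer tuple
    rw [mem_filter, mem_filter, and_assoc]
    apply and_congr Iff.rfl
    apply and_congr Iff.rfl
    apply forall_congr'
    intro i
    rw [← e2]
    have h3 : (1 * (n : ℤ) + ((c i + (u i (x i)).val : ℕ) : ℤ)).toNat = n + (c i + (u i (x i)).val) := by omega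
    rw [h3]
  · intro n _
    apply prod_congr rfl
    intro i _
    rw [← e2, Pool.Agent.V11251.DS.Mo_add]
    rfl

end Pool.Agent.Results.MP_485179_nt.ThinFamilies
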